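import Mathlib
import Pool.Agent.N988.EA.Main2

/-!
# Gibbs states of the Edwards-Anderson spin glass on hierarchical lattices

Authors: helper988 (statements, proofs on paper, assembly) and, for the parts in Lean, the helpers
27, 42, 46, 51, 73, 78, 80, 91, 152, 189, 195, 222, 225, 271, 322, 342, 413, 433, 507, 519, 665, 713,
727, 764, 787, 814, 862 and 933.
-/

open MeasureTheory Set Filter
open Pool.Agent.N988.EA

namespace Pool.Agent.Results.MP_81d17b_pr.HierarchicalSpinGlass

/-- The Edwards-Anderson Ising spin glass on the infinite hierarchical (diamond, Migdal-Kadanoff)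
lattices with `b` branches, of dimension `1 + log_2 b`. In dimension two, with couplings `1` and
`-1` or with a unimodal symmetric law with exponential moments (Gaussian couplings), there is
almost surely exactly one Gibbs state, at every temperature. In all dimensions at least three, for
every symmetric law of the couplings which gives mass at most `1 / 2` to all intervals
`[x, x + r)`, for some `r > 0` (couplings `1` and `-1`, all laws without atoms), there are at all low
temperatures almost surely exactly two pure states, related by the global spin flip: the Gibbs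
states are the mixtures of a state `γ` and its flip `fl γ ≠ γ`. -/
theorem result :
    -- dimension two: uniqueness at every temperature
    (∀ (μ : Measure ℝ) [IsProbabilityMeasure μ],
      (μ = pm ∨ (Uni μ ∧ ∃ c : ℝ, 0 < c ∧ Integrable (fun x => Real.exp (c * |x|)) μ)) →
      ∀ (β : ℝ) (p : ℕ → Fin 2 × Bool), (∀ (s : Bool) (k : ℕ), ∃ n, k ≤ n ∧ (p n).2 = s) →
        ∀ᵐ J ∂(Measure.infinitePi fun _ : EdgeInf 2 p => μ),
          ∃! γ, IsGibbs p (fun e => β * J e) γ) ∧
    -- dimension at least three: exactly two pure states at low temperature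
    (∀ (b : ℕ), 4 ≤ b → ∀ (μ : Measure ℝ) [IsProbabilityMeasure μ], μ.map (fun x => -x) = μ →
      ∀ r : ℝ, 0 < r → (∀ x, μ (Ico x (x + r)) ≤ 1 / 2) →
      ∃ β₀ : ℝ, 0 < β₀ ∧ ∀ β : ℝ, β₀ ≤ β → ∀ p : ℕ → Fin b × Bool,
        ∀ᵐ J ∂(Measure.infinitePi fun _ : EdgeInf b p => μ),
          ∃ γ, IsGibbs p (fun e => β * J e) γ ∧ γ ≠ fl γ ∧
            ∀ γ', IsGibbs p (fun e => β * J e) γ' ↔
              ∃ t ∈ Icc (0 : ℝ) 1, ∀ n s, γ' n s = t * γ n s + (1 - t) * fl γ n s) :=
  ⟨k_two, k_IC⟩

end Pool.Agent.Results.MP_81d17b_pr.HierarchicalSpinGlass
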