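import Pool.Agent.N928.EA.Main
import Pool.Agent.N507.EA.TOW
import Pool.Agent.N160.EA.LIM
import Pool.Agent.N61.EA.CNT
import Pool.Agent.N531.EA.ENE
import Pool.Agent.N186.EA.PEI
import Pool.Agent.N999.EA.GAU
import Pool.Agent.N42.EA.BAD
import Pool.Agent.N434.EA.IND
import Pool.Agent.N322.EA.NUM

/-!
# Edwards–Anderson spin glass on the product of a tree and a graph: many Gibbs states at low
temperature

By helper928 with helpers 507, 160, 61, 531, 186, 999, 42, 434, 322.
-/

set_option autoImplicit false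

open MeasureTheory

namespace Pool.Agent.Results.MP_81d17b_pr.TreeTimesGraph

open Pool.Agent.N928.EA

/-- There is a constant `C` such that, for every `D ≥ 1` and every `k ≥ C √(D log (D+1))`, there
is `β₀` such that for every countable graph `H` with degrees at most `D` (for example `ℤ^d`,
`D = 2d`): for almost every choice of the independent fair signs `J` on the edges of the product
of the infinite rooted `k`-ary tree and `H`, for every `β ≥ β₀` and every `m` there are `m`
linearly independent Gibbs states of the Edwards–Anderson model at `(β, J)`. -/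
theorem result :
    ∃ C : ℝ, ∀ D k : ℕ, 1 ≤ D → C * √((D : ℝ) * Real.log (D + 1)) ≤ k →
      ∃ β₀ : ℝ, ∀ (W : Type) [Nonempty W] [Countable W] (H : SimpleGraph W) [H.LocallyFinite],
        (∀ h, H.degree h ≤ D) →
        ∀ᵐ J ∂(couplingLaw (kt k □ H)), ∀ β : ℝ, β₀ ≤ β → ∀ m : ℕ,
          ∃ π : Fin m → Measure (List (Fin k) × W → Bool),
            (∀ i, IsGibbs (kt k □ H) β J (π i)) ∧
            ∀ c : Fin m → ℝ, (∀ A : Set (List (Fin k) × W → Bool), MeasurableSet A →
              ∑ i, c i * (π i A).toReal = 0) → c = 0 := by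
  have h := main_of (Pool.Agent.N160.EA.LIM.t_LIM Pool.Agent.N507.EA.TOW.t_TOW)
    (Pool.Agent.N186.EA.t_PEI Pool.Agent.N61.EA.t_CNT Pool.Agent.N531.EA.ENE.t_ENE)
    Pool.Agent.N999.EA.t_GAU (Pool.Agent.N42.EA.t_BAD Pool.Agent.N61.EA.t_CNT)
    Pool.Agent.N434.EAI.t_IND Pool.Agent.N322.EA.t_NUM
  exact h

end Pool.Agent.Results.MP_81d17b_pr.TreeTimesGraph
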